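import Mathlib

/-! Growth of heights along the orbits of a group of parabolic automorphisms. -/

namespace Pool.Agent.H13.HK

/-- Weil heights of an ample class `A` and of an invariant class `L` on the algebraic points of a
variety with an action of `ℤ ^ r` such that `(g + g')^* A - g^* A - g'^* A + A = k (g, g') L`. -/
structure Heights where
  /-- number of generators -/
  r : ℕ
  two_le : 2 ≤ r
  /-- the algebraic points -/
  X : Type
  /-- the action -/
  act : (Fin r → ℤ) → X → X
  act_zero : ∀ x, act 0 x = x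
  act_add : ∀ g g' x, act (g + g') x = act g (act g' x)
  /-- height for the ample class -/
  hA : X → ℝ
  /-- height for the invariant class -/
  hL : X → ℝ
  /-- the form of the group -/
  k : (Fin r → ℤ) → (Fin r → ℤ) → ℝ
  k_add : ∀ b b' c, k (b + b') c = k b c + k b' c
  k_symm : ∀ b c, k b c = k c b
  k_pos : ∀ b, b ≠ 0 → 0 < k b b
  /-- `k` is a multiple of an integral form: there are integral orthogonal vectors -/
  k_int : ∃ N : ℝ, N ≠ 0 ∧ ∀ b c, ∃ z : ℤ, N * k b c = z
  /-- Weil: `g^* L = L` -/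
  invL : ∀ g, ∃ C, ∀ x, |hL (act g x) - hL x| ≤ C
  /-- Weil: the identity of the classes -/
  sq : ∀ g g', ∃ C, ∀ x,
    |hA (act (g + g') x) - hA (act g x) - hA (act g' x) + hA x - k g g' * hL x| ≤ C
  /-- Weil: `A` is ample -/
  domL : ∃ C, ∀ x, |hL x| ≤ C * (1 + |hA x|)
  /-- Weil: `A` is ample -/
  domA : ∀ g, ∃ C, ∀ x, |hA (act g x)| ≤ C * (1 + |hA x|)

namespace Heights

variable (D : Heights)

/-- the mixed difference -/
private noncomputable def M (p q : Fin D.r → ℤ) (x : D.X) : ℝ :=
  D.hA (D.act (p + q) x) - D.hA (D.act p x) - D.hA (D.act q x) + D.hA x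

private lemma M_symm (p q : Fin D.r → ℤ) (x : D.X) : D.M p q x = D.M q p x := by
  unfold M; rw [add_comm p q]; ring

private lemma M_add (p p' q : Fin D.r → ℤ) (x : D.X) :
    D.M (p + p') q x = D.M p q x + D.M p' q (D.act p x) := by
  unfold M
  have h1 : D.act (p + p' + q) x = D.act (p' + q) (D.act p x) := by
    rw [← D.act_add]; congr 1; abel
  have h2 : D.act (p + p') x = D.act p' (D.act p x) := by
    rw [← D.act_add]; congr 1; abel
  have h3 : D.act (p + q) x = D.act q (D.act p x) := by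
    rw [← D.act_add]; congr 1; abel
  rw [h1, h2, h3]; ring

private lemma M_zero (q : Fin D.r → ℤ) (x : D.X) : D.M 0 q x = 0 := by
  unfold M; rw [zero_add, D.act_zero]; ring

private lemma act_smul_succ (h : Fin D.r → ℤ) (n : ℕ) (x : D.X) :
    D.act ((n + 1) • h) x = D.act h (D.act (n • h) x) := by
  rw [← D.act_add]; congr 1; rw [add_smul, one_smul, add_comm]

/-- `L` moves at most linearly -/
private lemma drift_lin (h : Fin D.r → ℤ) : ∃ C, 0 ≤ C ∧ ∀ (n : ℕ) x,
    |D.hL (D.act (n • h) x) - D.hL x| ≤ C * n := by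
  obtain ⟨C, hC⟩ := D.invL h
  refine ⟨|C|, abs_nonneg _, fun n x => ?_⟩
  induction n with
  | zero => simp [D.act_zero]
  | succ n ih =>
    rw [D.act_smul_succ]
    have h1 := (hC (D.act (n • h) x)).trans (le_abs_self C)
    have h2 := abs_sub_le (D.hL (D.act h (D.act (n • h) x))) (D.hL (D.act (n • h) x)) (D.hL x)
    push_cast
    linarith

/-- the mixed difference of multiples -/
private lemma mixed (h h' : Fin D.r → ℤ) : ∃ C, 0 ≤ C ∧ ∀ (n m : ℕ) x,
    |D.M (n • h) (m • h') x - n * m * (D.k h h' * D.hL x)| ≤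
      C * (n * m) * (1 + |D.k h h'| * (n + m)) := by
  obtain ⟨C, hC⟩ := D.sq h h'
  obtain ⟨c, hc0, hc⟩ := D.drift_lin h
  obtain ⟨c', hc0', hc'⟩ := D.drift_lin h'
  set κ := D.k h h' with hκ
  have base : ∀ x, |D.M h h' x - κ * D.hL x| ≤ |C| := fun x => (hC x).trans (le_abs_self C)
  -- multiples of `h`
  have one : ∀ (n : ℕ) x, |D.M (n • h) h' x - n * (κ * D.hL x)| ≤ n * (|C| + |κ| * (c * n)) := by
    intro n x
    induction n with
    | zero => simp [M_zero]
    | succ n ih =>
      have e1 : D.M ((n + 1) • h) h' x = D.M (n • h) h' x + D.M h h' (D.act (n • h) x) := by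
        rw [← D.M_add]; congr 1; rw [add_smul, one_smul]
      rw [e1]
      have h1 := base (D.act (n • h) x)
      have h2 := hc n x
      have h3 : |κ * (D.hL (D.act (n • h) x) - D.hL x)| ≤ |κ| * (c * n) := by
        rw [abs_mul]; exact mul_le_mul_of_nonneg_left h2 (abs_nonneg _)
      have e2 : D.M (n • h) h' x + D.M h h' (D.act (n • h) x) - ((n + 1 : ℕ) : ℝ) * (κ * D.hL x) =
          (D.M (n • h) h' x - n * (κ * D.hL x)) +
          (D.M h h' (D.act (n • h) x) - κ * D.hL (D.act (n • h) x)) +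
          κ * (D.hL (D.act (n • h) x) - D.hL x) := by push_cast; ring
      rw [e2]
      refine (abs_add_three _ _ _).trans ?_
      push_cast
      have h4 : 0 ≤ |κ| * c := mul_nonneg (abs_nonneg _) hc0
      have h5 : (0 : ℝ) ≤ n := Nat.cast_nonneg _
      nlinarith [mul_nonneg h4 h5]
  refine ⟨|C| + c + c', by positivity, fun n m x => ?_⟩
  have two : |D.M (n • h) (m • h') x - n * m * (κ * D.hL x)| ≤
      m * (n * (|C| + |κ| * (c * n)) + n * (|κ| * (c' * m))) := by
    induction m with
    | zero =>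
      rw [M_symm]
      simp [M_zero]
    | succ m ih =>
      have e1 : D.M (n • h) ((m + 1) • h') x = D.M (n • h) (m • h') x +
          D.M (n • h) h' (D.act (m • h') x) := by
        rw [M_symm, M_symm _ _ (m • h'), M_symm _ _ h', ← D.M_add]; congr 1
        rw [add_smul, one_smul]
      rw [e1]
      have h1 := one n (D.act (m • h') x)
      have h2 := hc' m x
      have h3 : |n * (κ * (D.hL (D.act (m • h') x) - D.hL x))| ≤ n * (|κ| * (c' * m)) := by
        rw [abs_mul, abs_mul, Nat.abs_cast]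
        exact mul_le_mul_of_nonneg_left (mul_le_mul_of_nonneg_left h2 (abs_nonneg _))
          (Nat.cast_nonneg _)
      have e2 : D.M (n • h) (m • h') x + D.M (n • h) h' (D.act (m • h') x) -
          n * ((m + 1 : ℕ) : ℝ) * (κ * D.hL x) =
          (D.M (n • h) (m • h') x - n * m * (κ * D.hL x)) +
          (D.M (n • h) h' (D.act (m • h') x) - n * (κ * D.hL (D.act (m • h') x))) +
          n * (κ * (D.hL (D.act (m • h') x) - D.hL x)) := by push_cast; ring
      rw [e2]
      refine (abs_add_three _ _ _).trans ?_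
      push_cast
      have h4 : 0 ≤ (n : ℝ) * (|κ| * c') := by positivity
      have h5 : (0 : ℝ) ≤ m := Nat.cast_nonneg _
      nlinarith [mul_nonneg h4 h5]
  refine two.trans ?_
  have hn : (0 : ℝ) ≤ n := Nat.cast_nonneg _
  have hm : (0 : ℝ) ≤ m := Nat.cast_nonneg _
  have hk : 0 ≤ |κ| := abs_nonneg _
  have hC' : 0 ≤ |C| := abs_nonneg _
  have e3 : (|C| + c + c') * (n * m) * (1 + |κ| * (n + m)) -
      m * (n * (|C| + |κ| * (c * n)) + n * (|κ| * (c' * m))) =
      (n * m) * ((c + c') + |κ| * (|C| * n + |C| * m + c * m + c' * n)) := by ring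
  have e4 : 0 ≤ ((n : ℝ) * m) * ((c + c') + |κ| * (|C| * n + |C| * m + c * m + c' * n)) := by
    positivity
  linarith

/-- `L` moves at most like a square root in a direction which has an orthogonal direction -/
private lemma drift_sqrt_nat (h h' : Fin D.r → ℤ) (h0 : D.k h h' = 0) (h1 : 0 < D.k h h) :
    ∃ C, 0 ≤ C ∧ ∀ (m : ℕ) x, |D.hL (D.act (m • h') x) - D.hL x| ≤ C * √m := by
  obtain ⟨C1, hC1, hM1⟩ := D.mixed h h
  obtain ⟨C2, hC2, hM2⟩ := D.mixed h' h
  set κ := D.k h h with hκ
  have k0 : D.k h' h = 0 := by rw [D.k_symm, h0]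
  -- the basic inequality
  have key : ∀ (n m : ℕ) x, 0 < n → κ * |D.hL (D.act (m • h') x) - D.hL x| ≤
      2 * C1 * (1 + κ * (n + n)) + 2 * C2 * (m / n) := by
    intro n m x hn
    have hn' : (0 : ℝ) < n := by exact_mod_cast hn
    set y := D.act (m • h') x with hy
    have a1 := hM1 n n x
    have a2 := hM1 n n y
    have a3 := hM2 m n x
    have a4 := hM2 m n (D.act (n • h) x)
    rw [k0] at a3 a4
    simp only [zero_mul, mul_zero, sub_zero, abs_zero, add_zero, mul_one] at a3 a4
    rw [abs_of_pos h1] at a1 a2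
    have e1 : D.M (n • h) (n • h) y - D.M (n • h) (n • h) x =
        D.M (m • h') (n • h) (D.act (n • h) x) - D.M (m • h') (n • h) x := by
      have b1 := D.M_add (m • h') (n • h) (n • h) x
      have b2 := D.M_add (n • h) (m • h') (n • h) x
      rw [add_comm (m • h')] at b1
      linarith
    have e2 : (n : ℝ) * n * (κ * (D.hL y - D.hL x)) =
        (D.M (n • h) (n • h) x - n * n * (κ * D.hL x)) -
        (D.M (n • h) (n • h) y - n * n * (κ * D.hL y)) +
        D.M (m • h') (n • h) (D.act (n • h) x) - D.M (m • h') (n • h) x := by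
      linarith
    have e3 : (n : ℝ) * n * (κ * |D.hL y - D.hL x|) ≤
        2 * (C1 * (n * n) * (1 + κ * (n + n))) + 2 * (C2 * (m * n)) := by
      have : (n : ℝ) * n * (κ * |D.hL y - D.hL x|) = |(n : ℝ) * n * (κ * (D.hL y - D.hL x))| := by
        rw [abs_mul, abs_mul κ, abs_of_pos h1, abs_of_pos (mul_pos hn' hn')]
      rw [this, e2]
      rw [abs_le] at *
      constructor <;> linarith [a1.1, a1.2, a2.1, a2.2, a3.1, a3.2, a4.1, a4.2]
    have e4 : (n : ℝ) * n * (2 * C1 * (1 + κ * (n + n)) + 2 * C2 * (m / n)) =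
        2 * (C1 * (n * n) * (1 + κ * (n + n))) + 2 * (C2 * (m * n)) := by
      field_simp
    rw [← e4] at e3
    exact le_of_mul_le_mul_left e3 (mul_pos hn' hn')
  refine ⟨(2 * C1 * (1 + 4 * κ) + 2 * C2) / κ, by positivity, fun m x => ?_⟩
  rcases Nat.eq_zero_or_pos m with rfl | hm
  · simp [D.act_zero]
  have hm' : (1 : ℝ) ≤ m := by exact_mod_cast hm
  have hs1 : 1 ≤ √(m : ℝ) := Real.one_le_sqrt.2 hm'
  have hs0 : √(m : ℝ) * √m = m := Real.mul_self_sqrt (by positivity)
  set s := √(m : ℝ) with hs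
  obtain ⟨n, hn⟩ : ∃ n : ℕ, n = ⌈s⌉₊ := ⟨_, rfl⟩
  have hn1 : s ≤ n := by rw [hn]; exact Nat.le_ceil s
  have hn2 : (n : ℝ) ≤ 2 * s := by
    have := Nat.ceil_lt_add_one (by positivity : 0 ≤ s)
    rw [hn]; linarith
  have hn0 : 0 < n := by
    have : (0 : ℝ) < n := by linarith
    exact_mod_cast this
  have hk := key n m x hn0
  have hn0' : (0 : ℝ) < n := by exact_mod_cast hn0
  have hd : (m : ℝ) / n ≤ s := by
    rw [div_le_iff₀ hn0', ← hs0]
    exact mul_le_mul_of_nonneg_left hn1 (by positivity)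
  have hb : 2 * C1 * (1 + κ * (n + n)) ≤ 2 * C1 * (1 + 4 * κ) * s := by
    have : 1 + κ * (n + n) ≤ (1 + 4 * κ) * s := by nlinarith
    calc 2 * C1 * (1 + κ * (n + n)) ≤ 2 * C1 * ((1 + 4 * κ) * s) :=
          mul_le_mul_of_nonneg_left this (by positivity)
      _ = _ := by ring
  have hb2 : 2 * C2 * (m / n) ≤ 2 * C2 * s := mul_le_mul_of_nonneg_left hd (by positivity)
  rw [div_mul_eq_mul_div, le_div_iff₀ h1]
  calc |D.hL (D.act (m • h') x) - D.hL x| * κ = κ * |D.hL (D.act (m • h') x) - D.hL x| := by ring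
    _ ≤ _ := hk
    _ ≤ _ := by nlinarith

private lemma k_smul_nat (n : ℕ) (b c : Fin D.r → ℤ) : D.k (n • b) c = n * D.k b c := by
  induction n with
  | zero =>
    have := D.k_add 0 0 c
    rw [add_zero] at this
    rw [zero_smul]; push_cast; linarith
  | succ n ih => rw [add_smul, one_smul, D.k_add, ih]; push_cast; ring

private lemma k_zero (c : Fin D.r → ℤ) : D.k 0 c = 0 := by
  simpa using D.k_smul_nat 0 0 c

private lemma k_neg (b c : Fin D.r → ℤ) : D.k (-b) c = - D.k b c := by
  have := D.k_add b (-b) c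
  rw [add_neg_cancel, D.k_zero] at this
  linarith

private lemma k_smul (n : ℤ) (b c : Fin D.r → ℤ) : D.k (n • b) c = n * D.k b c := by
  obtain ⟨m, rfl | rfl⟩ := n.eq_nat_or_neg
  · rw [natCast_zsmul, D.k_smul_nat]; push_cast; ring
  · rw [neg_smul, natCast_zsmul, D.k_neg, D.k_smul_nat]; push_cast; ring

/-- every direction has an orthogonal direction -/
private lemma exists_orth (i : Fin D.r) : ∃ h, D.k h (Pi.single i 1) = 0 ∧ 0 < D.k h h := by
  obtain ⟨j, hj⟩ : ∃ j : Fin D.r, j ≠ i := by
    have : 1 < Fintype.card (Fin D.r) := by rw [Fintype.card_fin]; exact D.two_le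
    exact Fintype.exists_ne_of_one_lt_card this i
  set ei : Fin D.r → ℤ := Pi.single i 1 with hei
  set ej : Fin D.r → ℤ := Pi.single j 1 with hej
  obtain ⟨N, hN, hint⟩ := D.k_int
  obtain ⟨z1, hz1⟩ := hint ei ei
  obtain ⟨z2, hz2⟩ := hint ei ej
  have hi0 : ei ≠ 0 := by
    intro h
    have := congrFun h i
    simp [hei] at this
  have hz1' : z1 ≠ 0 := by
    rintro rfl
    have := D.k_pos ei hi0
    rw [Int.cast_zero] at hz1
    rcases mul_eq_zero.1 hz1 with h | h
    · exact hN h
    · linarith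
  refine ⟨z1 • ej - z2 • ei, ?_, ?_⟩
  · rw [sub_eq_add_neg, D.k_add, ← neg_smul, D.k_smul, D.k_smul, D.k_symm ej ei]
    push_cast
    rw [← hz1, ← hz2]; ring
  · apply D.k_pos
    intro h
    have := congrFun h j
    simp [hei, hej, hj] at this
    exact hz1' this

/-- `L` moves at most like a square root -/
private lemma drift_sqrt : ∃ C, 0 ≤ C ∧ ∀ (i : Fin D.r) (m : ℤ) (n : ℕ) x, |m| ≤ n →
    |D.hL (D.act (m • Pi.single i 1) x) - D.hL x| ≤ C * √n := by
  have h1 : ∀ i : Fin D.r, ∃ C, 0 ≤ C ∧ ∀ (m : ℕ) x,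
      |D.hL (D.act (m • Pi.single i 1) x) - D.hL x| ≤ C * √m := by
    intro i
    obtain ⟨h, h0, h1⟩ := D.exists_orth i
    exact D.drift_sqrt_nat h _ h0 h1
  choose C hC0 hC using h1
  refine ⟨∑ i, C i, Finset.sum_nonneg fun i _ => hC0 i, fun i m n x hm => ?_⟩
  have hle : C i ≤ ∑ i, C i := Finset.single_le_sum (fun i _ => hC0 i) (Finset.mem_univ i)
  have step : ∀ (a : ℕ) y, a ≤ n →
      |D.hL (D.act (a • Pi.single i 1) y) - D.hL y| ≤ (∑ i, C i) * √n := by
    intro a y ha
    refine (hC i a y).trans ?_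
    have : √(a : ℝ) ≤ √n := Real.sqrt_le_sqrt (by exact_mod_cast ha)
    exact mul_le_mul hle this (Real.sqrt_nonneg _) (Finset.sum_nonneg fun i _ => hC0 i)
  obtain ⟨a, rfl | rfl⟩ := m.eq_nat_or_neg
  · rw [natCast_zsmul]
    apply step
    simpa using hm
  · have ha : a ≤ n := by
      have : |(-(a : ℤ))| = a := by simp
      rw [this] at hm
      exact_mod_cast hm
    have := step a (D.act ((-(a : ℤ)) • Pi.single i 1) x) ha
    rw [← D.act_add, neg_smul, natCast_zsmul, add_neg_cancel, D.act_zero, abs_sub_comm] at this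
    simpa [neg_smul, natCast_zsmul] using this

/-- a function on a box which changes little along the coordinates -/
private lemma coord {r : ℕ} (F : (Fin r → ℤ) → ℝ) (n : ℕ) (B : ℝ)
    (hF : ∀ (g : Fin r → ℤ) (i : Fin r) (m : ℤ), (∀ j, |g j| ≤ n) → g i = 0 → |m| ≤ n →
      |F (g + m • Pi.single i 1) - F g| ≤ B) (g : Fin r → ℤ) (hg : ∀ j, |g j| ≤ n) :
    |F g - F 0| ≤ r * B := by
  classical
  have h1 : ∀ s : Finset (Fin r),
      |F (fun i => if i ∈ s then g i else 0) - F 0| ≤ s.card * B := by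
    intro s
    induction s using Finset.induction_on with
    | empty =>
      have : (fun i : Fin r => if i ∈ (∅ : Finset (Fin r)) then g i else 0) = 0 := by
        ext i; simp
      rw [this]; simp
    | insert j s hj ih =>
      have e1 : (fun i => if i ∈ insert j s then g i else 0) =
          (fun i => if i ∈ s then g i else 0) + g j • Pi.single j 1 := by
        ext i
        by_cases hij : i = j
        · subst hij; simp [hj]
        · simp [hij]
      rw [e1, Finset.card_insert_of_notMem hj]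
      have h2 := hF (fun i => if i ∈ s then g i else 0) j (g j)
        (by
          intro i
          by_cases h : i ∈ s
          · simpa [h] using hg i
          · simp [h])
        (by simp [hj]) (hg j)
      have h3 := abs_sub_le (F ((fun i => if i ∈ s then g i else 0) + g j • Pi.single j 1))
        (F (fun i => if i ∈ s then g i else 0)) (F 0)
      push_cast
      linarith
  have h2 := h1 Finset.univ
  simpa using h2

/-- a function on a box which changes little in each step -/
private lemma steps {r : ℕ} (F : (Fin r → ℤ) → ℝ) (n : ℕ) (B : ℝ) (hB : 0 ≤ B)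
    (hF : ∀ (g : Fin r → ℤ) (i : Fin r), (∀ j, |g j| ≤ n) →
      |F (g + Pi.single i 1) - F g| ≤ B) (g : Fin r → ℤ) (hg : ∀ j, |g j| ≤ n) :
    |F g - F 0| ≤ r * (n * B) := by
  refine coord F n (n * B) ?_ g hg
  intro g i m hg hi hm
  have up : ∀ (a : ℕ) (g' : Fin r → ℤ), (∀ j, j ≠ i → |g' j| ≤ n) → -(n : ℤ) ≤ g' i →
      g' i + a ≤ n → |F (g' + (a : ℤ) • Pi.single i 1) - F g'| ≤ a * B := by
    intro a g' h1 h2 h3
    induction a with
    | zero => simp
    | succ a ih =>
      have ih' := ih (by push_cast at h3; linarith)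
      have hb : ∀ j, |(g' + (a : ℤ) • Pi.single i 1 : Fin r → ℤ) j| ≤ n := by
        intro j
        by_cases hj : j = i
        · subst hj
          push_cast at h3
          simp
          rw [abs_le]
          constructor <;> linarith
        · simpa [hj] using h1 j hj
      have h4 := hF _ i hb
      have e1 : g' + ((a + 1 : ℕ) : ℤ) • (Pi.single i 1 : Fin r → ℤ) =
          g' + (a : ℤ) • Pi.single i 1 + Pi.single i 1 := by
        push_cast; rw [add_smul, one_smul, add_assoc]
      rw [e1]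
      have h5 := abs_sub_le (F (g' + (a : ℤ) • Pi.single i 1 + Pi.single i 1))
        (F (g' + (a : ℤ) • Pi.single i 1)) (F g')
      push_cast
      linarith
  obtain ⟨a, rfl | rfl⟩ := m.eq_nat_or_neg
  · have ha : (a : ℤ) ≤ n := by simpa using hm
    have := up a g (fun j _ => hg j) (by rw [hi]; simp) (by rw [hi]; simpa using ha)
    refine this.trans (mul_le_mul_of_nonneg_right (by exact_mod_cast ha) hB)
  · have ha : (a : ℤ) ≤ n := by simpa using hm
    have h1 : (g + (-(a : ℤ)) • Pi.single i 1 : Fin r → ℤ) i = -a := by simp [hi]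
    have := up a (g + (-(a : ℤ)) • Pi.single i 1)
      (by intro j hj; simpa [hj] using hg j) (by rw [h1]; linarith) (by rw [h1]; simp)
    have e1 : g + (-(a : ℤ)) • Pi.single i 1 + (a : ℤ) • (Pi.single i 1 : Fin r → ℤ) = g := by
      rw [neg_smul]; abel
    rw [e1, abs_sub_comm] at this
    refine this.trans (mul_le_mul_of_nonneg_right (by exact_mod_cast ha) hB)

/-- **Growth of heights.** -/
theorem growth : ∃ C, 0 < C ∧ ∀ (n : ℕ) (g : Fin D.r → ℤ) (x : D.X), (∀ i, |g i| ≤ n) →
    |D.hA (D.act g x)| ≤ C * (n + 1) ^ 2 * (1 + |D.hA x| + √n) := by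
  obtain ⟨c, hc0, hc⟩ := D.drift_sqrt
  obtain ⟨cL, hcL⟩ := D.domL
  -- constants for the unit vectors
  have h1 : ∀ i : Fin D.r, ∃ C, ∀ x, |D.hA (D.act (Pi.single i 1) x)| ≤ C * (1 + |D.hA x|) :=
    fun i => D.domA _
  choose cA hcA using h1
  have h2 : ∀ i j : Fin D.r, ∃ C, ∀ x, |D.M (Pi.single i 1) (Pi.single j 1) x -
      D.k (Pi.single i 1) (Pi.single j 1) * D.hL x| ≤ C := fun i j => D.sq _ _
  choose cS hcS using h2
  set S := ∑ i, ∑ j, |cS i j| with hS
  set K := ∑ i : Fin D.r, ∑ j : Fin D.r, |D.k (Pi.single i 1) (Pi.single j 1)| with hK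
  set T := ∑ i, |cA i| with hT
  have hS0 : 0 ≤ S := Finset.sum_nonneg fun i _ => Finset.sum_nonneg fun j _ => abs_nonneg _
  have hK0 : 0 ≤ K := Finset.sum_nonneg fun i _ => Finset.sum_nonneg fun j _ => abs_nonneg _
  have hT0 : 0 ≤ T := Finset.sum_nonneg fun i _ => abs_nonneg _
  have hSle : ∀ i j, |cS i j| ≤ S := fun i j =>
    (Finset.single_le_sum (f := fun j => |cS i j|) (fun j _ => abs_nonneg _)
      (Finset.mem_univ j)).trans
    (Finset.single_le_sum (f := fun i => ∑ j, |cS i j|)
      (fun i _ => Finset.sum_nonneg fun j _ => abs_nonneg _) (Finset.mem_univ i))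
  have hKle : ∀ i j : Fin D.r, |D.k (Pi.single i 1) (Pi.single j 1)| ≤ K := fun i j =>
    (Finset.single_le_sum (f := fun j => |D.k (Pi.single i 1) (Pi.single j 1)|)
      (fun j _ => abs_nonneg _) (Finset.mem_univ j)).trans
    (Finset.single_le_sum (f := fun i => ∑ j, |D.k (Pi.single i 1) (Pi.single j 1)|)
      (fun i _ => Finset.sum_nonneg fun j _ => abs_nonneg _) (Finset.mem_univ i))
  have hTle : ∀ i, |cA i| ≤ T := fun i =>
    Finset.single_le_sum (f := fun i => |cA i|) (fun i _ => abs_nonneg _) (Finset.mem_univ i)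
  -- the height for `L`
  have hl : ∀ (n : ℕ) (g : Fin D.r → ℤ) x, (∀ i, |g i| ≤ n) →
      |D.hL (D.act g x)| ≤ |cL| * (1 + |D.hA x|) + D.r * (c * √n) := by
    intro n g x hg
    have h3 := coord (fun g => D.hL (D.act g x)) n (c * √n) (by
      intro g i m _ _ hm
      have := hc i m n (D.act g x) hm
      rw [← D.act_add] at this
      simpa [add_comm] using this) g hg
    simp only [D.act_zero] at h3
    have h4 : |D.hL x| ≤ |cL| * (1 + |D.hA x|) :=
      (hcL x).trans (mul_le_mul_of_nonneg_right (le_abs_self _) (by positivity))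
    have h5 : |D.hL (D.act g x)| ≤ |D.hL (D.act g x) - D.hL x| + |D.hL x| := by
      have := abs_add_le (D.hL (D.act g x) - D.hL x) (D.hL x)
      simpa using this
    linarith
  -- the first differences
  have hd : ∀ (n : ℕ) (g : Fin D.r → ℤ) x, (∀ i, |g i| ≤ n) → ∀ i,
      |D.hA (D.act (Pi.single i 1) (D.act g x)) - D.hA (D.act g x)| ≤
      (T + 1) * (1 + |D.hA x|) +
        D.r * (n * (S + K * (|cL| * (1 + |D.hA x|) + D.r * (c * √n)))) := by
    intro n g x hg i
    have h3 := steps (fun g => D.hA (D.act (Pi.single i 1) (D.act g x)) - D.hA (D.act g x)) n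
      (S + K * (|cL| * (1 + |D.hA x|) + D.r * (c * √n))) (by positivity) (by
      intro g j hg
      have a1 := hcS i j (D.act g x)
      have a2 := hl n g x hg
      have e1 : D.hA (D.act (Pi.single i 1) (D.act (g + Pi.single j 1) x)) -
          D.hA (D.act (g + Pi.single j 1) x) -
          (D.hA (D.act (Pi.single i 1) (D.act g x)) - D.hA (D.act g x)) =
          D.M (Pi.single i 1) (Pi.single j 1) (D.act g x) := by
        unfold M
        rw [D.act_add (Pi.single i 1) (Pi.single j 1), add_comm g, D.act_add (Pi.single j 1) g]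
        ring
      rw [e1]
      have a3 : |D.k (Pi.single i 1) (Pi.single j 1) * D.hL (D.act g x)| ≤
          K * (|cL| * (1 + |D.hA x|) + D.r * (c * √n)) := by
        rw [abs_mul]
        exact mul_le_mul (hKle i j) a2 (abs_nonneg _) hK0
      have a4 : |D.M (Pi.single i 1) (Pi.single j 1) (D.act g x) -
          D.k (Pi.single i 1) (Pi.single j 1) * D.hL (D.act g x)| ≤ S :=
        a1.trans ((le_abs_self _).trans (hSle i j))
      have a5 := abs_add_le (D.M (Pi.single i 1) (Pi.single j 1) (D.act g x) -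
          D.k (Pi.single i 1) (Pi.single j 1) * D.hL (D.act g x))
          (D.k (Pi.single i 1) (Pi.single j 1) * D.hL (D.act g x))
      rw [sub_add_cancel] at a5
      linarith) g hg
    simp only [D.act_zero] at h3
    have h4 : |D.hA (D.act (Pi.single i 1) x) - D.hA x| ≤ (T + 1) * (1 + |D.hA x|) := by
      have b1 := hcA i x
      have b2 : cA i * (1 + |D.hA x|) ≤ T * (1 + |D.hA x|) :=
        mul_le_mul_of_nonneg_right ((le_abs_self _).trans (hTle i)) (by positivity)
      have b3 := abs_sub (D.hA (D.act (Pi.single i 1) x)) (D.hA x)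
      linarith [abs_nonneg (D.hA x)]
    have h5 := abs_add_le ((D.hA (D.act (Pi.single i 1) (D.act g x)) - D.hA (D.act g x)) -
      (D.hA (D.act (Pi.single i 1) x) - D.hA x)) (D.hA (D.act (Pi.single i 1) x) - D.hA x)
    rw [sub_add_cancel] at h5
    linarith
  -- the height for `A`
  have hr0 : (0 : ℝ) ≤ D.r := Nat.cast_nonneg _
  refine ⟨1 + D.r * ((T + 1) + D.r * (S + K * (|cL| + D.r * c))), by positivity, ?_⟩
  intro n g x hg
  set H := 1 + |D.hA x| with hH
  have hH1 : 1 ≤ H := by have := abs_nonneg (D.hA x); linarith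
  have hn0 : (0 : ℝ) ≤ n := Nat.cast_nonneg _
  set s := √(n : ℝ) with hs
  have hs0 : 0 ≤ s := Real.sqrt_nonneg _
  have h3 := steps (fun g => D.hA (D.act g x)) n
      ((T + 1) * H + D.r * (n * (S + K * (|cL| * H + D.r * (c * s))))) (by positivity) (by
      intro g j hg
      have := hd n g x hg j
      rw [add_comm g, D.act_add]
      exact this) g hg
  simp only [D.act_zero] at h3
  have h4 : |D.hA (D.act g x)| ≤ |D.hA (D.act g x) - D.hA x| + |D.hA x| := by
    have := abs_add_le (D.hA (D.act g x) - D.hA x) (D.hA x)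
    simpa using this
  have h5 : |D.hA (D.act g x)| ≤
      D.r * (n * ((T + 1) * H + D.r * (n * (S + K * (|cL| * H + D.r * (c * s)))))) + |D.hA x| := by
    linarith
  refine h5.trans ?_
  have p1 : (n : ℝ) ≤ (n + 1) ^ 2 := by nlinarith
  have p2 : (n : ℝ) * n ≤ (n + 1) ^ 2 := by nlinarith
  have p3 : (1 : ℝ) ≤ (n + 1) ^ 2 := by nlinarith
  have q1 : H ≤ H + s := by linarith
  have q2 : S + K * (|cL| * H + D.r * (c * s)) ≤ (S + K * (|cL| + D.r * c)) * (H + s) := by
    have : 0 ≤ S * (H + s - 1) + K * |cL| * s + K * D.r * c * H := by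
      have : 0 ≤ H + s - 1 := by linarith
      positivity
    nlinarith
  have hx : |D.hA x| ≤ 1 * (n + 1) ^ 2 * (H + s) := by
    have : |D.hA x| ≤ H + s := by linarith
    calc |D.hA x| ≤ 1 * (H + s) := by linarith
      _ ≤ (n + 1) ^ 2 * (H + s) := mul_le_mul_of_nonneg_right p3 (by positivity)
      _ = _ := by ring
  have t1 : (n : ℝ) * ((T + 1) * H) ≤ (n + 1) ^ 2 * ((T + 1) * (H + s)) :=
    mul_le_mul p1 (mul_le_mul_of_nonneg_left q1 (by positivity)) (by positivity) (by positivity)
  have t2 : (n : ℝ) * n * (S + K * (|cL| * H + D.r * (c * s))) ≤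
      (n + 1) ^ 2 * ((S + K * (|cL| + D.r * c)) * (H + s)) :=
    mul_le_mul p2 q2 (by positivity) (by positivity)
  have t3 : (D.r : ℝ) * (n * ((T + 1) * H + D.r * (n * (S + K * (|cL| * H + D.r * (c * s)))))) =
      D.r * (n * ((T + 1) * H)) + D.r * (D.r * (n * n * (S + K * (|cL| * H + D.r * (c * s))))) := by ring
  rw [t3]
  have u1 := mul_le_mul_of_nonneg_left t1 hr0
  have u2 := mul_le_mul_of_nonneg_left (mul_le_mul_of_nonneg_left t2 hr0) hr0
  calc _ ≤ D.r * ((n + 1) ^ 2 * ((T + 1) * (H + s))) +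
        D.r * (D.r * ((n + 1) ^ 2 * ((S + K * (|cL| + D.r * c)) * (H + s)))) +
        1 * (n + 1) ^ 2 * (H + s) := by linarith
    _ = _ := by ring

end Heights

end Pool.Agent.H13.HK
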